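import Pool.Agent.W2helper18.HX.UpD
import Pool.Agent.W2helper18.HX.LoF

/-!
# Extension of Hölder maps into Euclidean space: the exact order of the extension constant

For every `1/2 < α < 1` the extension constant `c_α(n)` of `α`-Hölder maps into `n`-dimensional
Euclidean space satisfies, with two positive constants `q`, `Q` depending only on `α`,
`q n^(α - 1/2) / (1 + log n) ≤ c_α(n) ≤ Q n^(α - 1/2) / (1 + log n)` for all `n ≥ 1`.
-/

noncomputable section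

namespace Pool.Agent.Results.MP_e08f0b_an.ExactOrder

universe u

open Pool.Agent.W2helper18.HE Pool.Agent.W2helper18.HX

/-- The extension property with constant `c`: for every metric space `M`, every subset `E` of `M`
and every map `φ` from `E` to `n`-dimensional Euclidean space with
`‖φ x - φ y‖ ≤ d(x, y)^α` on `E`, there is an extension `ψ` of `φ` to `M` with
`‖ψ x - ψ y‖ ≤ c d(x, y)^α` on `M`. -/
def ExtProp (α : ℝ) (n : ℕ) (c : ℝ) : Prop :=
  ∀ (M : Type u) [MetricSpace M] (E : Set M) (φ : E → EuclideanSpace ℝ (Fin n)),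
    (∀ x y : E, ‖φ x - φ y‖ ≤ dist (x : M) (y : M) ^ α) →
      ∃ ψ : M → EuclideanSpace ℝ (Fin n), (∀ x : E, ψ (x : M) = φ x) ∧
        ∀ x y : M, ‖ψ x - ψ y‖ ≤ c * dist x y ^ α

/-- The constant `c_α(n)`: the infimum of all constants with the extension property. -/
def extConst (α : ℝ) (n : ℕ) : ℝ := sInf {c : ℝ | 0 ≤ c ∧ ExtProp.{u} α n c}

theorem toExtX {α : ℝ} {n : ℕ} {c : ℝ} (h : ExtProp.{u} α n c) (X : Type) [MetricSpace X] :
    ExtX α n c X := by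
  intro E φ hφ
  obtain ⟨ψ, h1, h2⟩ := h (ULift.{u} X) (ULift.down ⁻¹' E)
    (fun x => φ ⟨(x : ULift.{u} X).down, x.2⟩) (fun x y => hφ _ _)
  exact ⟨fun x => ψ ⟨x⟩, fun x => h1 ⟨⟨x⟩, x.2⟩, fun x y => h2 ⟨x⟩ ⟨y⟩⟩

/-- For every `1/2 < α < 1` there are `0 < q` and `0 < Q` such that for all `n ≥ 1` the constant
`Q n^(α - 1/2) / (1 + log n)` has the extension property, every constant with the extension
property is at least `q n^(α - 1/2) / (1 + log n)`, and hence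
`q n^(α - 1/2) / (1 + log n) ≤ c_α(n) ≤ Q n^(α - 1/2) / (1 + log n)`. -/
theorem result : ∀ α : ℝ, 1 / 2 < α → α < 1 → ∃ q Q : ℝ, 0 < q ∧ 0 < Q ∧ ∀ n : ℕ, 1 ≤ n →
    ExtProp.{u} α n (Q * ((n : ℝ) ^ (α - 1 / 2) / (1 + Real.log n))) ∧
    (∀ c : ℝ, ExtProp.{u} α n c → q * ((n : ℝ) ^ (α - 1 / 2) / (1 + Real.log n)) ≤ c) ∧
    q * ((n : ℝ) ^ (α - 1 / 2) / (1 + Real.log n)) ≤ extConst.{u} α n ∧
    extConst.{u} α n ≤ Q * ((n : ℝ) ^ (α - 1 / 2) / (1 + Real.log n)) := by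
  intro α h12 h1
  obtain ⟨q, hq, hlow⟩ := lower_final h12 h1
  obtain ⟨Q, hQ, hup⟩ := upper_final.{u} h12 h1
  refine ⟨q, Q, hq, hQ, fun n hn => ?_⟩
  have hn1 : (1 : ℝ) ≤ n := by exact_mod_cast hn
  have hlog : 0 ≤ Real.log n := Real.log_nonneg hn1
  have h0 : 0 ≤ (n : ℝ) ^ (α - 1 / 2) / (1 + Real.log n) := by positivity
  have hE : ExtProp.{u} α n (Q * ((n : ℝ) ^ (α - 1 / 2) / (1 + Real.log n))) :=
    fun M _ E φ hφ => hup n hn M E φ hφ
  have hL : ∀ c : ℝ, ExtProp.{u} α n c →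
      q * ((n : ℝ) ^ (α - 1 / 2) / (1 + Real.log n)) ≤ c :=
    fun c hc => hlow n hn c fun X _ => toExtX hc X
  have hmem : Q * ((n : ℝ) ^ (α - 1 / 2) / (1 + Real.log n)) ∈
      {c : ℝ | 0 ≤ c ∧ ExtProp.{u} α n c} := ⟨mul_nonneg hQ.le h0, hE⟩
  exact ⟨hE, hL, le_csInf ⟨_, hmem⟩ fun c hc => hL c hc.2,
    csInf_le ⟨0, fun c hc => hc.1⟩ hmem⟩

end Pool.Agent.Results.MP_e08f0b_an.ExactOrder
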